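import Pool.Agent.helper76.FF2.Spec

/-! Row ff2:E2B (MP_bbe200_nt): the local sums at a double zero of the derivative. -/

set_option autoImplicit false

namespace Pool.Agent.FF2

open Polynomial

theorem E2B (K : Type*) [Field K] [CharP K 2] (h1 : E2A_stmt K) (h2 : PWS_stmt K) (h3 : LDV_stmt K) : E2B_stmt K := by
  obtain ⟨-, -, -, -, -, hadd, hsmul, -, hsq⟩ := h1
  intro A s b hA hA'
  refine ⟨(hasseDeriv 2 s).eval b / s.eval b + ((derivative s).eval b / s.eval b) ^ 2,
    (hasseDeriv 3 s).eval b / s.eval b +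
      ((derivative s).eval b / s.eval b) * ((hasseDeriv 2 s).eval b / s.eval b), ?_⟩
  intro w R hw hwb α γ
  obtain ⟨hG, hs, e1, e2', e3⟩ := h3 A w s (pol R) b hw hA hA' hwb
  have hb : b ∉ R := by
    intro hb
    apply hG
    unfold pol
    rw [eval_prod]
    exact Finset.prod_eq_zero hb (by simp)
  obtain ⟨-, p1, p2, p3⟩ := h2 R b hb
  have hfun : (fun x : K => α / (x + b) ^ 2 + γ / (x + b)) =
      fun x => (fun x : K => α * (fun x : K => (fun x : K => 1 / (x + b)) x ^ 2) x) x +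
        (fun x : K => γ * (fun x : K => 1 / (x + b)) x) x := by
    funext x
    simp only [one_div, div_eq_mul_inv, inv_pow, one_mul]
  rw [hfun, hadd, hsmul, hsmul, hsq, p2]
  have hz : ∑ x ∈ R, (fun x : K => α * (fun x : K => (fun x : K => 1 / (x + b)) x ^ 2) x) x =
      α * (∑ x ∈ R, 1 / (x + b)) ^ 2 := by
    rw [CharTwo.sum_sq, Finset.mul_sum]
  have ht : ∑ x ∈ R, (fun x : K => γ * (fun x : K => 1 / (x + b)) x) x = γ * ∑ x ∈ R, 1 / (x + b) := by
    rw [Finset.mul_sum]
  have hzt : ∑ x ∈ R, (fun x : K => α * (fun x : K => (fun x : K => 1 / (x + b)) x ^ 2) x) x *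
      (fun x : K => γ * (fun x : K => 1 / (x + b)) x) x = α * γ * ∑ x ∈ R, (1 / (x + b)) ^ 3 := by
    rw [Finset.mul_sum]
    refine Finset.sum_congr rfl fun x _ => ?_
    ring
  rw [hz, ht, hzt, p1, p3]
  have h20 : (2 : K) = 0 := CharTwo.two_eq_zero
  linear_combination (α ^ 2 * ((hasseDeriv 2 (pol R)).eval b / (pol R).eval b +
      ((hasseDeriv 2 A).eval b * (1 / w.eval b ^ 4) +
      ((hasseDeriv 2 s).eval b / s.eval b + ((derivative s).eval b / s.eval b) ^ 2))) + γ ^ 2) * e2' +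
    α * γ * e3 + (α * γ * ((derivative (pol R)).eval b / (pol R).eval b) ^ 3) * h20

end Pool.Agent.FF2
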